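import Pool.Agent.helper61.Y2.Spec

set_option autoImplicit false

namespace H61.Y2

open H61.Yorioka Cardinal

theorem Y0E : Y0E_stmt := by
  rintro A B ⟨m, hm⟩ x hx
  have hx' : {t | t ∈ UN A ∧ IsInit t x}.Infinite := hx
  have hfin : (⋃ j ∈ Finset.range m, (A j : Set (List Bool))).Finite :=
    Set.Finite.biUnion (Finset.finite_toSet _) fun j _ => Finset.finite_toSet _
  have hsub : {t | t ∈ UN A ∧ IsInit t x} ⊆
      {t | t ∈ UN B ∧ IsInit t x} ∪ ⋃ j ∈ Finset.range m, (A j : Set (List Bool)) := by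
    rintro t ⟨⟨j, hj⟩, ht⟩
    by_cases hjm : m ≤ j
    · exact Or.inl ⟨⟨j, hm j hjm hj⟩, ht⟩
    · exact Or.inr (Set.mem_biUnion (Finset.mem_coe.2 (Finset.mem_range.2 (not_le.1 hjm))) hj)
  intro hB
  exact hx' ((hB.union hfin).subset hsub)

end H61.Y2
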